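import Pool.Agent.H17.E2.Ter

/-!
# Exponent two: the chain theorem

`C = t(p,q)`, `r_i = C^i r`, `u_i = u(p,q,r_i)`: the `u_i` commute, and
`t(r_0, r_m) = u_0 u_1 .. u_(m-1) C` for odd `m`.
-/

set_option autoImplicit false

namespace ALoop

open Equiv

variable {Q : Type*}

/-- `u_a u_(a+1) .. u_(a+m-1)` -/
def pr (u : ℕ → Perm Q) : ℕ → ℕ → Perm Q
  | _, 0 => 1
  | a, m + 1 => u a * pr u (a + 1) m

theorem pr_zero (u : ℕ → Perm Q) (a : ℕ) : pr u a 0 = 1 := rfl

theorem pr_succ (u : ℕ → Perm Q) (a m : ℕ) : pr u a (m + 1) = u a * pr u (a + 1) m := rfl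

theorem pr_last (u : ℕ → Perm Q) (m : ℕ) : ∀ a, pr u a (m + 1) = pr u a m * u (a + m) := by
  induction m with
  | zero => intro a; rw [pr_succ, pr_zero, pr_zero, mul_one, one_mul, Nat.add_zero]
  | succ m ih =>
    intro a
    rw [pr_succ, ih (a + 1), ← mul_assoc, ← pr_succ, Nat.add_right_comm a 1 m, Nat.add_assoc a m 1]

theorem pr_comm (u : ℕ → Perm Q) (g : Perm Q) (m : ℕ) : ∀ a,
    (∀ i, a ≤ i → i < a + m → Commute g (u i)) → Commute g (pr u a m) := by
  induction m with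
  | zero => intro a _; rw [pr_zero]; exact Commute.one_right g
  | succ m ih =>
    intro a hh
    rw [pr_succ]
    exact (hh a le_rfl (by omega)).mul_right (ih (a + 1) fun i h1 h2 => hh i (by omega) (by omega))

/-- the facts on a chain -/
structure Ch (M : Subgroup (Perm Q)) (u : ℕ → Perm Q) (r : ℕ → Q) (C : Perm Q)
    (D : ℕ → ℕ → Perm Q) (A B : ℕ → Perm Q) : Prop where
  mC : C ∈ M
  mu : ∀ i, u i ∈ M
  cr : ∀ i, C (r i) = r (i + 1)
  cu : ∀ i, C * u i = u (i + 1) * C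
  sq : ∀ i, u i * u i = 1
  ufix : ∀ i, u i (r (i + 1)) = r (i + 1)
  u0 : ∀ i, u i (r i) = r (i + 2)
  cD : ∀ i j, C * D i j = D (i + 1) (j + 1) * C
  D1 : ∀ i, D i (i + 1) = u i * C
  Dr : ∀ i j, D i j (r i) = r j
  fsym : ∀ i j k, D i j (r k) = D j k (r i)
  tri : ∀ i j k m, D i j (r k) = r m →
    (D i j * D j k * (D i j)⁻¹ * (D j k)⁻¹) * (D i j * D j k * (D i j)⁻¹ * (D j k)⁻¹) = 1 ∧
      D i m = (D i j * D j k * (D i j)⁻¹ * (D j k)⁻¹) * D j k
  A2 : ∀ i, A (i + 2) = u (i + 1) * u i * A i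
  B2 : ∀ i, B (i + 2) = u (i + 1) * u i * B i
  KA : ∀ i j, Commute ((D i j)⁻¹ * A j) (A i)
  KB : ∀ i j, Commute ((D i j)⁻¹ * B j) (B i)
  KD : ∀ i j k, Commute ((D i j)⁻¹ * D k j) (D i k)
  uAB : ∀ i g, Commute g (A i) → Commute g (B i) → Commute g (u i)
  Dc : ∀ i j g, g ∈ M → g (r i) = r j → g (r j) = r i → Commute g (D i j)
  Dc' : ∀ i j g, g ∈ M → g (r i) = r i → g (r j) = r j → Commute g (D i j)

namespace Ch

variable {M : Subgroup (Perm Q)} {u : ℕ → Perm Q} {r : ℕ → Q} {C : Perm Q}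
  {D : ℕ → ℕ → Perm Q} {A B : ℕ → Perm Q}

theorem u2 (H : Ch M u r C D A B) (i : ℕ) : u i (r (i + 2)) = r i := by
  rw [← H.u0 i, ← Perm.mul_apply, H.sq]; rfl

theorem pr_C (H : Ch M u r C D A B) (m : ℕ) : ∀ a, C * pr u a m = pr u (a + 1) m * C := by
  induction m with
  | zero => intro a; rw [pr_zero, pr_zero, mul_one, one_mul]
  | succ m ih =>
    intro a
    rw [pr_succ, pr_succ, ← mul_assoc, H.cu, mul_assoc, ih, ← mul_assoc]

/-- distance at most `n` implies commuting -/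
def S (u : ℕ → Perm Q) (n : ℕ) : Prop := ∀ i k, k ≤ n → Commute (u i) (u (i + k))

theorem shift (H : Ch M u r C D A B) (k : ℕ) (h0 : Commute (u 0) (u k)) :
    ∀ i, Commute (u i) (u (i + k)) := by
  intro i
  induction i with
  | zero => rw [Nat.zero_add]; exact h0
  | succ i ih =>
    have h1 : u (i + 1) = C * u i * C⁻¹ := by rw [H.cu]; group
    have h2 : u (i + 1 + k) = C * u (i + k) * C⁻¹ := by
      rw [H.cu, Nat.add_right_comm]; group
    rw [h1, h2]
    have h3 : u i * u (i + k) = u (i + k) * u i := ih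
    show C * u i * C⁻¹ * (C * u (i + k) * C⁻¹) = C * u (i + k) * C⁻¹ * (C * u i * C⁻¹)
    calc C * u i * C⁻¹ * (C * u (i + k) * C⁻¹) = C * (u i * u (i + k)) * C⁻¹ := by group
      _ = C * (u (i + k) * u i) * C⁻¹ := by rw [h3]
      _ = _ := by group

theorem Fp (H : Ch M u r C D A B) {n : ℕ} (hS : S u n) (t : ℕ) (ht : 2 * t ≤ n + 1) (i : ℕ) :
    u i (r (i + (2 * t + 1))) = r (i + (2 * t + 1)) := by
  induction t with
  | zero => exact H.ufix i
  | succ t ih =>
    have h1 := ih (by omega)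
    have h2 : u (i + (2 * t + 1)) (r (i + (2 * t + 1))) = r (i + (2 * (t + 1) + 1)) :=
      H.u0 (i + (2 * t + 1))
    have h3 : u i * u (i + (2 * t + 1)) = u (i + (2 * t + 1)) * u i := hS i (2 * t + 1) (by omega)
    rw [← h2, ← Perm.mul_apply, h3, Perm.mul_apply, h1]

theorem Fm (H : Ch M u r C D A B) {n : ℕ} (hS : S u n) (t : ℕ) (ht : 2 * t + 1 ≤ n) :
    ∀ i, u (i + (2 * t + 1)) (r i) = r i := by
  induction t with
  | zero =>
    intro i
    have h3 : u i * u (i + 1) = u (i + 1) * u i := hS i 1 (by omega)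
    have h4 : u (i + 1) (r (i + 2)) = r (i + 2) := H.ufix (i + 1)
    show u (i + 1) (r i) = r i
    calc u (i + 1) (r i) = (u (i + 1) * u i) (r (i + 2)) := by rw [Perm.mul_apply, H.u2]
      _ = r i := by rw [← h3, Perm.mul_apply, h4, H.u2]
  | succ t ih =>
    intro i
    have h1 := ih (by omega) (i + 2)
    have h3 : u i * u (i + (2 * (t + 1) + 1)) = u (i + (2 * (t + 1) + 1)) * u i := hS i _ (by omega)
    have h4 : i + (2 * (t + 1) + 1) = i + 2 + (2 * t + 1) := by omega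
    calc u (i + (2 * (t + 1) + 1)) (r i) = (u (i + (2 * (t + 1) + 1)) * u i) (r (i + 2)) := by
          rw [Perm.mul_apply, H.u2]
      _ = r i := by rw [← h3, Perm.mul_apply, h4, h1, H.u2]

/-- `u_0 .. u_(k-1)` maps `r_0` to `r_k`, `k` even -/
theorem pr_r (H : Ch M u r C D A B) {n : ℕ} (hS : S u n) (t : ℕ) (ht : 2 * t ≤ n + 1) (a : ℕ) :
    pr u a (2 * t) (r a) = r (a + 2 * t) := by
  induction t with
  | zero => rfl
  | succ t ih =>
    have h1 := ih (by omega)
    have h2 : pr u a (2 * (t + 1)) = pr u a (2 * t) * u (a + 2 * t) * u (a + (2 * t + 1)) := by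
      have : 2 * (t + 1) = 2 * t + 1 + 1 := by ring
      rw [this, pr_last, pr_last]
    have h3 : Commute (u (a + 2 * t)) (pr u a (2 * t)) := pr_comm u _ _ _ fun i hi hi' => by
      have := hS i (a + 2 * t - i) (by omega)
      rw [show i + (a + 2 * t - i) = a + 2 * t by omega] at this
      exact this.symm
    have h4 : Commute (u (a + (2 * t + 1))) (pr u a (2 * t)) := pr_comm u _ _ _ fun i hi hi' => by
      have := hS i (a + (2 * t + 1) - i) (by omega)
      rw [show i + (a + (2 * t + 1) - i) = a + (2 * t + 1) by omega] at this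
      exact this.symm
    have h5 := H.Fm hS 0 (by omega) (a + 2 * t)
    have h6 := H.u0 (a + 2 * t)
    have h7 : pr u a (2 * (t + 1)) = u (a + 2 * t) * u (a + (2 * t + 1)) * pr u a (2 * t) := by
      rw [h2]
      exact ((h3.mul_left h4).eq.symm.trans rfl ▸ by rw [mul_assoc])
    rw [h7, Perm.mul_apply, h1, Perm.mul_apply]
    rw [show a + (2 * t + 1) = a + 2 * t + (2 * 0 + 1) by ring, h5, h6]
    congr 1

theorem A_k {n : ℕ} (hS : S u n) (X : ℕ → Perm Q)
    (hX : ∀ i, X (i + 2) = u (i + 1) * u i * X i) (t : ℕ) (ht : 2 * t ≤ n + 1) :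
    X (2 * t) = pr u 0 (2 * t) * X 0 := by
  induction t with
  | zero => rw [Nat.mul_zero, pr_zero, one_mul]
  | succ t ih =>
    have h1 := ih (by omega)
    have h2 : pr u 0 (2 * (t + 1)) = pr u 0 (2 * t) * u (2 * t) * u (2 * t + 1) := by
      have : 2 * (t + 1) = 2 * t + 1 + 1 := by ring
      rw [this, pr_last, pr_last, Nat.zero_add, Nat.zero_add]
    have h3 : Commute (u (2 * t)) (pr u 0 (2 * t)) := pr_comm u _ _ _ fun i hi hi' => by
      have := hS i (2 * t - i) (by omega)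
      rw [show i + (2 * t - i) = 2 * t by omega] at this
      exact this.symm
    have h4 : Commute (u (2 * t + 1)) (pr u 0 (2 * t)) := pr_comm u _ _ _ fun i hi hi' => by
      have := hS i (2 * t + 1 - i) (by omega)
      rw [show i + (2 * t + 1 - i) = 2 * t + 1 by omega] at this
      exact this.symm
    have h5 : Commute (u (2 * t)) (u (2 * t + 1)) := hS (2 * t) 1 (by omega)
    have h6 : u (2 * t + 1) * u (2 * t) * pr u 0 (2 * t) =
        pr u 0 (2 * t) * u (2 * t) * u (2 * t + 1) := by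
      rw [← h5.eq, (h3.mul_left h4).eq, mul_assoc]
    rw [show 2 * (t + 1) = 2 * t + 2 by ring, hX, h1, ← mul_assoc, h6, ← h2]
    congr 1

/-- the central element of an even step -/
theorem kap (H : Ch M u r C D A B) (t : ℕ) (hS : S u (2 * t + 1))
    (hD : ∀ i, D i (i + (2 * t + 1)) = pr u i (2 * t + 1) * C) :
    ∃ κ : Perm Q, Commute κ C ∧ (∀ i, Commute κ (u i)) ∧ (∀ i, κ (r i) = r i) ∧
      ∀ i, D i (i + (2 * t + 2)) = pr u i (2 * t + 2) * κ⁻¹ := by
  obtain ⟨κ, hκ⟩ : ∃ κ, κ = (D 0 (2 * t + 2))⁻¹ * pr u 0 (2 * t + 2) := ⟨_, rfl⟩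
  have hA : A (2 * t + 2) = pr u 0 (2 * t + 2) * A 0 := A_k hS A H.A2 (t + 1) (by omega)
  have hB : B (2 * t + 2) = pr u 0 (2 * t + 2) * B 0 := A_k hS B H.B2 (t + 1) (by omega)
  have h1 : Commute κ (A 0) := by
    have h2 := H.KA 0 (2 * t + 2)
    rw [hA, ← mul_assoc, ← hκ] at h2
    have h3 : κ * A 0 * A 0 = A 0 * (κ * A 0) := h2
    rw [← mul_assoc] at h3
    exact mul_right_cancel h3
  have h2 : Commute κ (B 0) := by
    have h2 := H.KB 0 (2 * t + 2)
    rw [hB, ← mul_assoc, ← hκ] at h2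
    have h3 : κ * B 0 * B 0 = B 0 * (κ * B 0) := h2
    rw [← mul_assoc] at h3
    exact mul_right_cancel h3
  have h3 : Commute κ (u 0) := H.uAB 0 κ h1 h2
  have hu0 : Commute (u 0) (pr u 0 (2 * t + 2)) := pr_comm u _ _ _ fun i hi hi' => by
    have := hS 0 i (by omega)
    rwa [Nat.zero_add] at this
  have h4 : Commute κ C := by
    have h5 := H.KD 0 (2 * t + 2) 1
    have h6 : D 1 (2 * t + 2) = pr u 0 (2 * t + 2) * (u 0 * C) := by
      have h7 := hD 1
      rw [show 1 + (2 * t + 1) = 2 * t + 2 by ring] at h7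
      rw [h7, ← mul_assoc, ← hu0.eq, pr_succ u 0 (2 * t + 1), ← mul_assoc, H.sq, one_mul]
    have h8 := H.D1 0
    rw [h6, h8, ← mul_assoc, ← hκ] at h5
    have h9 : κ * (u 0 * C) * (u 0 * C) = (u 0 * C) * (κ * (u 0 * C)) := h5
    rw [← mul_assoc (u 0 * C) κ] at h9
    have h10 : κ * (u 0 * C) = u 0 * C * κ := mul_right_cancel h9
    have h11 : u 0 * (κ * C) = u 0 * (C * κ) := by
      rw [← mul_assoc, ← h3.eq, mul_assoc, h10, mul_assoc]
    exact mul_left_cancel h11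
  have h5 : ∀ i, Commute κ (u i) := by
    intro i
    induction i with
    | zero => exact h3
    | succ i ih =>
      have h6 : u (i + 1) = C * u i * C⁻¹ := by rw [H.cu]; group
      rw [h6]
      exact (h4.mul_right ih).mul_right h4.inv_right
  have h6 : κ (r 0) = r 0 := by
    have h7 : pr u 0 (2 * t + 2) (r 0) = r (2 * t + 2) := by
      have := H.pr_r hS (t + 1) (by omega) 0
      rwa [Nat.zero_add] at this
    rw [hκ, Perm.mul_apply, h7, Perm.inv_eq_iff_eq, H.Dr]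
  have h7 : ∀ i, κ (r i) = r i := by
    intro i
    induction i with
    | zero => exact h6
    | succ i ih =>
      rw [← H.cr, ← Perm.mul_apply, h4.eq, Perm.mul_apply, ih]
  refine ⟨κ, h4, h5, h7, ?_⟩
  intro i
  induction i with
  | zero =>
    rw [hκ, Nat.zero_add]; group
  | succ i ih =>
    have h8 : D (i + 1) (i + 1 + (2 * t + 2)) = C * D i (i + (2 * t + 2)) * C⁻¹ := by
      rw [H.cD, show i + (2 * t + 2) + 1 = i + 1 + (2 * t + 2) by ring]; group
    rw [h8, ih, ← mul_assoc, H.pr_C, mul_assoc (pr u (i + 1) (2 * t + 2) * C), mul_assoc]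
    congr 1
    rw [← mul_assoc C, ← h4.inv_left.eq]; group

theorem stepA (H : Ch M u r C D A B) (t : ℕ) (hS : S u (2 * t + 1))
    (hD : ∀ i, D i (i + (2 * t + 1)) = pr u i (2 * t + 1) * C) :
    S u (2 * t + 2) ∧ ∀ i, D i (i + (2 * t + 3)) = pr u i (2 * t + 3) * C := by
  have h1 : D 0 1 (r (2 * t + 2)) = r (2 * t + 3) := by
    have h2 := H.Fp hS (t + 1) (by omega) 0
    rw [Nat.zero_add] at h2
    have h3 : 2 * (t + 1) + 1 = 2 * t + 3 := by ring
    rw [h3] at h2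
    have h4 := H.D1 0
    rw [Nat.zero_add] at h4
    rw [h4, Perm.mul_apply, H.cr, h2]
  obtain ⟨h2, h3⟩ := H.tri 0 1 (2 * t + 2) (2 * t + 3) h1
  have h4 : D 1 (2 * t + 2) = pr u 1 (2 * t + 1) * C := by
    have := hD 1
    rwa [show 1 + (2 * t + 1) = 2 * t + 2 by ring] at this
  have h5 : D 0 1 = u 0 * C := by
    have h4 := H.D1 0
    rwa [Nat.zero_add] at h4
  obtain ⟨w, hw⟩ : ∃ w, w = pr u 1 (2 * t + 1) := ⟨_, rfl⟩
  obtain ⟨w', hw'⟩ : ∃ w', w' = pr u 2 (2 * t + 1) := ⟨_, rfl⟩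
  have h6 : C * w = w' * C := by rw [hw, hw']; exact H.pr_C _ 1
  have h7 : C * u 0 = u 1 * C := H.cu 0
  have h8 : u 1 * w' = w * u (2 * t + 2) := by
    rw [hw, hw', ← pr_succ u 1 (2 * t + 1), pr_last]
    rw [show 1 + (2 * t + 1) = 2 * t + 2 by ring]
  have h9 : Commute (u 1) w' := by
    rw [hw']
    refine pr_comm u _ _ _ fun i hi hi' => ?_
    have := hS 1 (i - 1) (by omega)
    rwa [show 1 + (i - 1) = i by omega] at this
  have h10 : Commute (u (2 * t + 2)) w := by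
    rw [hw]
    refine pr_comm u _ _ _ fun i hi hi' => ?_
    have := hS i (2 * t + 2 - i) (by omega)
    rw [show i + (2 * t + 2 - i) = 2 * t + 2 by omega] at this
    exact this.symm
  have h11 : D 0 1 * D 1 (2 * t + 2) * (D 0 1)⁻¹ * (D 1 (2 * t + 2))⁻¹ = u 0 * u (2 * t + 2) := by
    rw [h4, h5, ← hw]
    calc u 0 * C * (w * C) * (u 0 * C)⁻¹ * (w * C)⁻¹
        = u 0 * (C * w) * (u 0)⁻¹ * C⁻¹ * w⁻¹ := by group
      _ = u 0 * (w' * C) * u 0 * C⁻¹ * w⁻¹ := by
          rw [h6, inv_eq_of_mul_eq_one_left (H.sq 0)]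
      _ = u 0 * w' * (C * u 0) * C⁻¹ * w⁻¹ := by group
      _ = u 0 * w' * (u 1 * C) * C⁻¹ * w⁻¹ := by rw [h7]
      _ = u 0 * (w' * u 1) * w⁻¹ := by group
      _ = u 0 * (w * u (2 * t + 2)) * w⁻¹ := by rw [← h9.eq, h8]
      _ = u 0 * (u (2 * t + 2) * w) * w⁻¹ := by rw [h10.eq]
      _ = u 0 * u (2 * t + 2) := by group
  rw [h11] at h2 h3
  have h12 : Commute (u 0) (u (2 * t + 2)) := by
    have h13 : u 0 * u (2 * t + 2) = (u 0 * u (2 * t + 2))⁻¹ := eq_inv_of_mul_eq_one_left h2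
    rw [mul_inv_rev, inv_eq_of_mul_eq_one_left (H.sq 0),
      inv_eq_of_mul_eq_one_left (H.sq (2 * t + 2))] at h13
    exact h13
  have h13 : D 0 (2 * t + 3) = pr u 0 (2 * t + 3) * C := by
    rw [h3, h4, ← hw, pr_succ u 0 (2 * t + 2), Nat.zero_add, pr_last u (2 * t + 1) 1, ← hw,
      show 1 + (2 * t + 1) = 2 * t + 2 by ring]
    calc u 0 * u (2 * t + 2) * (w * C) = u 0 * (u (2 * t + 2) * w) * C := by group
      _ = u 0 * (w * u (2 * t + 2)) * C := by rw [h10.eq]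
  refine ⟨?_, ?_⟩
  · intro i k hk
    rcases Nat.lt_or_ge k (2 * t + 2) with hk' | hk'
    · exact hS i k (by omega)
    · have hk2 : k = 2 * t + 2 := le_antisymm hk hk'
      subst hk2
      exact H.shift _ h12 i
  · intro i
    induction i with
    | zero => rw [Nat.zero_add]; exact h13
    | succ i ih =>
      have h8 : D (i + 1) (i + 1 + (2 * t + 3)) = C * D i (i + (2 * t + 3)) * C⁻¹ := by
        rw [H.cD, show i + (2 * t + 3) + 1 = i + 1 + (2 * t + 3) by ring]; group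
      rw [h8, ih, ← mul_assoc, H.pr_C]; group

theorem base (H : Ch M u r C D A B) : Commute (u 0) (u 1) := by
  obtain ⟨κ, hκ⟩ : ∃ κ, κ = (D 0 2)⁻¹ * (u 1 * u 0) := ⟨_, rfl⟩
  have h1 : Commute κ (A 0) := by
    have h2 := H.KA 0 2
    have h3 : A 2 = u 1 * u 0 * A 0 := H.A2 0
    rw [h3, ← mul_assoc, ← hκ] at h2
    have h3 : κ * A 0 * A 0 = A 0 * (κ * A 0) := h2
    rw [← mul_assoc] at h3
    exact mul_right_cancel h3
  have h2 : Commute κ (B 0) := by
    have h2 := H.KB 0 2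
    have h3 : B 2 = u 1 * u 0 * B 0 := H.B2 0
    rw [h3, ← mul_assoc, ← hκ] at h2
    have h3 : κ * B 0 * B 0 = B 0 * (κ * B 0) := h2
    rw [← mul_assoc] at h3
    exact mul_right_cancel h3
  have h3 : Commute κ (u 0) := H.uAB 0 κ h1 h2
  have h4 : Commute (u 0) (D 0 2) := H.Dc 0 2 (u 0) (H.mu 0) (H.u0 0) (H.u2 0)
  have h5 : u 1 * u 0 = D 0 2 * κ := by rw [hκ]; group
  have h6 : Commute (u 0) (u 1 * u 0) := by rw [h5]; exact h4.mul_right h3.symm
  have h7 : u 0 * (u 1 * u 0) = u 1 * u 0 * u 0 := h6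
  rw [← mul_assoc] at h7
  exact mul_right_cancel h7

theorem stepB (H : Ch M u r C D A B) (t : ℕ) (hS : S u (2 * t + 2)) (hS1 : S u (2 * t + 1))
    (hD : ∀ i, D i (i + (2 * t + 1)) = pr u i (2 * t + 1) * C) :
    S u (2 * t + 3) := by
  obtain ⟨κ, hκ1, hκ2, hκ3, hκ4⟩ := H.kap t hS1 hD
  have hSone : S u 1 := fun i k hk => hS i k (by omega)
  obtain ⟨κ', hκ1', hκ2', hκ3', hκ4'⟩ := H.kap 0 hSone (fun i => by
    show D i (i + 1) = pr u i 1 * C
    rw [H.D1, pr_succ, pr_zero, mul_one])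
  have hinv : κ⁻¹ (r 0) = r 0 := by rw [Perm.inv_eq_iff_eq, hκ3]
  have hinv' : κ'⁻¹ (r (2 * t + 4)) = r (2 * t + 4) := by rw [Perm.inv_eq_iff_eq, hκ3']
  have h1 : D 0 2 (r (2 * t + 4)) = D 2 (2 * t + 4) (r 0) := H.fsym 0 2 (2 * t + 4)
  have hD2 : D 0 2 = u 0 * u 1 * κ'⁻¹ := by
    have := hκ4' 0
    rw [Nat.zero_add] at this
    rw [this]
    rfl
  have h2 : D 2 (2 * t + 4) = pr u 2 (2 * t + 2) * κ⁻¹ := by
    have := hκ4 2
    rwa [show 2 + (2 * t + 2) = 2 * t + 4 by ring] at this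
  rw [hD2, h2, Perm.mul_apply, Perm.mul_apply, Perm.mul_apply, hinv, hinv'] at h1
  -- `u_1` fixes `r_(2t+4)`
  have h3 : u 1 (r (2 * t + 4)) = r (2 * t + 4) := by
    have := H.Fp hS (t + 1) (by omega) 1
    rwa [show 1 + (2 * (t + 1) + 1) = 2 * t + 4 by ring] at this
  rw [h3] at h1
  have h01 : Commute (u 0) (u 1) := hS 0 1 (by omega)
  -- `u_0 .. u_(2t+3)` maps `r_0` to `r_(2t+4)`
  have h4 : pr u 0 (2 * t + 4) (r 0) = r (2 * t + 4) := by
    have h5 : pr u 0 (2 * t + 4) = u 1 * u 0 * pr u 2 (2 * t + 2) := by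
      rw [pr_succ u 0 (2 * t + 3), pr_succ u (0 + 1) (2 * t + 2), ← mul_assoc]
      show u 0 * u 1 * pr u 2 (2 * t + 2) = _
      rw [h01.eq]
    rw [h5, Perm.mul_apply, ← h1, Perm.mul_apply, ← Perm.mul_apply (u 0), H.sq, Perm.one_apply, h3]
  have h5 : pr u 0 (2 * t + 4) = pr u 0 (2 * t + 2) * u (2 * t + 2) * u (2 * t + 3) := by
    rw [pr_last u (2 * t + 3) 0, pr_last u (2 * t + 2) 0, Nat.zero_add, Nat.zero_add]
  have h6 : Commute (u (2 * t + 2)) (pr u 0 (2 * t + 2)) := pr_comm u _ _ _ fun i hi hi' => by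
    have := hS i (2 * t + 2 - i) (by omega)
    rw [show i + (2 * t + 2 - i) = 2 * t + 2 by omega] at this
    exact this.symm
  have h7 : pr u 0 (2 * t + 2) (r 0) = r (2 * t + 2) := by
    have := H.pr_r hS (t + 1) (by omega) 0
    rwa [Nat.zero_add] at this
  have h8 : (pr u 0 (2 * t + 2) * u (2 * t + 2)) (r 0) = r (2 * t + 4) := by
    rw [← h6.eq, Perm.mul_apply, h7, H.u0]
  have h9 : u (2 * t + 3) (r 0) = r 0 := by
    rw [h5, Perm.mul_apply, ← h8] at h4
    exact (pr u 0 (2 * t + 2) * u (2 * t + 2)).injective h4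
  have h10 : u (2 * t + 3) (r 2) = r 2 := by
    have := H.Fm hS t (by omega) 2
    rwa [show 2 + (2 * t + 1) = 2 * t + 3 by ring] at this
  have h11 : Commute (u (2 * t + 3)) (D 0 2) := H.Dc' 0 2 _ (H.mu _) h9 h10
  have h12 : Commute (u (2 * t + 3)) (u 1) := by
    have := hS 1 (2 * t + 2) (by omega)
    rw [show 1 + (2 * t + 2) = 2 * t + 3 by ring] at this
    exact this.symm
  have h13 : u 0 = D 0 2 * κ' * (u 1)⁻¹ := by
    rw [hD2]; group
  have h14 : Commute (u (2 * t + 3)) (u 0) := by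
    rw [h13]
    exact (h11.mul_right (hκ2' _).symm).mul_right h12.inv_right
  intro i k hk
  rcases Nat.lt_or_ge k (2 * t + 3) with hk' | hk'
  · exact hS i k (by omega)
  · have hk2 : k = 2 * t + 3 := le_antisymm hk hk'
    subst hk2
    exact H.shift _ h14.symm i

theorem main (H : Ch M u r C D A B) (t : ℕ) :
    S u (2 * t + 1) ∧ ∀ i, D i (i + (2 * t + 1)) = pr u i (2 * t + 1) * C := by
  induction t with
  | zero =>
    refine ⟨?_, fun i => ?_⟩
    · intro i k hk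
      have hk' : k = 0 ∨ k = 1 := by omega
      rcases hk' with rfl | rfl
      · exact Commute.refl _
      · exact H.shift 1 H.base i
    · show D i (i + 1) = pr u i 1 * C
      rw [H.D1, pr_succ, pr_zero, mul_one]
  | succ t ih =>
    obtain ⟨h1, h2⟩ := ih
    obtain ⟨h3, h4⟩ := H.stepA t h1 h2
    exact ⟨H.stepB t h3 h1 h2, h4⟩

end Ch

/-- the chain of `p`, `q`, `r` -/
theorem AE.ch {G : Subgroup (Perm Q)} {L : Q → Perm Q} {e : Q} (h : AE G L e) (p q r : Q) :
    Ch G (fun i => uu L p q (((tt L p q) ^ i) r)) (fun i => ((tt L p q) ^ i) r) (tt L p q)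
      (fun i j => tt L (((tt L p q) ^ i) r) (((tt L p q) ^ j) r))
      (fun i => tt L p (((tt L p q) ^ i) r)) (fun i => tt L q (((tt L p q) ^ i) r)) := by
  have hcr : ∀ i : ℕ, tt L p q (((tt L p q) ^ i) r) = ((tt L p q) ^ (i + 1)) r := by
    intro i; rw [← Perm.mul_apply, ← pow_succ']
  have hus : ∀ s : Q, uu L q p s = uu L p q s := by
    intro s
    have h1 := h.rs p q s
    have h2 := h.rs q p s
    rw [h.tt_symm q p] at h2
    rw [h1] at h2
    exact (mul_right_cancel h2).symm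
  have hD1 : ∀ s : Q, tt L s (tt L p q s) = uu L p q s * tt L p q := fun s => h.rs p q s
  have hrot : ∀ a b c : Q, tt L a b c = tt L b c a := by
    intro a b c
    rw [h.tt_symm b c, h.tt_rot c b a, h.tt_symm c a, h.tt_rot a c b]
  -- `X⁻¹ Y ~ Z`
  have hK : ∀ a b c : Q, Commute ((tt L a b)⁻¹ * tt L c b) (tt L c a) := by
    intro a b c
    have := h.prod_comm b c a
    rw [h.tt_symm b a, h.tt_symm b c] at this
    exact this
  refine
    { mC := h.mem_tt _ _
      mu := fun i => h.mem_uu _ _ _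
      cr := hcr
      cu := ?_
      sq := fun i => h.uu_sq _ _ _
      ufix := ?_
      u0 := ?_
      cD := ?_
      D1 := ?_
      Dr := fun i j => h.tt_left _ _
      fsym := fun i j k => hrot _ _ _
      tri := ?_
      A2 := ?_
      B2 := ?_
      KA := ?_
      KB := ?_
      KD := ?_
      uAB := ?_
      Dc := ?_
      Dc' := ?_ }
  · intro i
    have h1 := h.uu_conj (h.mem_tt p q) p q (((tt L p q) ^ i) r)
    rw [h.tt_left, h.tt_right, hus, hcr] at h1
    show tt L p q * uu L p q (((tt L p q) ^ i) r) = uu L p q (((tt L p q) ^ (i + 1)) r) * tt L p q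
    rw [← h1]; group
  · intro i
    show uu L p q (((tt L p q) ^ i) r) (((tt L p q) ^ (i + 1)) r) = ((tt L p q) ^ (i + 1)) r
    rw [← hcr]
    exact h.uu_s p q _
  · intro i
    show uu L p q (((tt L p q) ^ i) r) (((tt L p q) ^ i) r) = ((tt L p q) ^ (i + 2)) r
    have h1 := hD1 (((tt L p q) ^ i) r)
    have h2 : uu L p q (((tt L p q) ^ i) r) (((tt L p q) ^ (i + 2)) r) = ((tt L p q) ^ i) r := by
      rw [← hcr (i + 1), ← hcr i, ← Perm.mul_apply, ← h1, h.tt_right]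
    have h3 : (uu L p q (((tt L p q) ^ i) r) * uu L p q (((tt L p q) ^ i) r))
        (((tt L p q) ^ (i + 2)) r) = ((tt L p q) ^ (i + 2)) r := by
      rw [h.uu_sq]; rfl
    rw [Perm.mul_apply, h2] at h3
    exact h3
  · intro i j
    have h1 := h.tt_conj (h.mem_tt p q) (((tt L p q) ^ i) r) (((tt L p q) ^ j) r)
    rw [hcr, hcr] at h1
    show tt L p q * tt L (((tt L p q) ^ i) r) (((tt L p q) ^ j) r) = _ * tt L p q
    rw [← h1]; group
  · intro i
    have h1 := hD1 (((tt L p q) ^ i) r)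
    rw [hcr] at h1
    exact h1
  · intro i j k m hm
    have hm' : tt L (((tt L p q) ^ i) r) (((tt L p q) ^ j) r) (((tt L p q) ^ k) r) =
      ((tt L p q) ^ m) r := hm
    obtain ⟨a, ha⟩ : ∃ a, a = ((tt L p q) ^ i) r := ⟨_, rfl⟩
    obtain ⟨b, hb⟩ : ∃ b, b = ((tt L p q) ^ j) r := ⟨_, rfl⟩
    obtain ⟨c, hc⟩ : ∃ c, c = ((tt L p q) ^ k) r := ⟨_, rfl⟩
    obtain ⟨d, hd⟩ : ∃ d, d = ((tt L p q) ^ m) r := ⟨_, rfl⟩
    have goal : (tt L a b * tt L b c * (tt L a b)⁻¹ * (tt L b c)⁻¹) *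
        (tt L a b * tt L b c * (tt L a b)⁻¹ * (tt L b c)⁻¹) = 1 ∧
        tt L a d = (tt L a b * tt L b c * (tt L a b)⁻¹ * (tt L b c)⁻¹) * tt L b c := by
      have hm2 : tt L a b c = d := by rw [ha, hb, hc, hd]; exact hm'
      have h1 : tt L a b * tt L b c * (tt L a b)⁻¹ = tt L a d := by
        rw [← hm2]; exact h.ps_2 a b c
      have h2 : tt L a b * tt L b c * (tt L a b)⁻¹ * (tt L b c)⁻¹ = uu L a b c := by
        rw [h1, ← hm2, h.ps]; group
      rw [h2]
      refine ⟨h.uu_sq _ _ _, ?_⟩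
      rw [← hm2, h.ps]
    rw [ha, hb, hc, hd] at goal
    exact goal
  · intro i
    show tt L p (((tt L p q) ^ (i + 2)) r) = uu L p q (((tt L p q) ^ (i + 1)) r) *
      uu L p q (((tt L p q) ^ i) r) * tt L p (((tt L p q) ^ i) r)
    rw [← hcr (i + 1), h.ps, ← hcr i, h.qs, mul_assoc]
  · intro i
    show tt L q (((tt L p q) ^ (i + 2)) r) = uu L p q (((tt L p q) ^ (i + 1)) r) *
      uu L p q (((tt L p q) ^ i) r) * tt L q (((tt L p q) ^ i) r)
    rw [← hcr (i + 1), h.qs, ← hcr i, h.ps, mul_assoc]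
  · intro i j
    have := hK (((tt L p q) ^ i) r) (((tt L p q) ^ j) r) p
    exact this
  · intro i j
    exact hK (((tt L p q) ^ i) r) (((tt L p q) ^ j) r) q
  · intro i j k
    have := hK (((tt L p q) ^ i) r) (((tt L p q) ^ j) r) (((tt L p q) ^ k) r)
    rw [h.tt_symm (((tt L p q) ^ k) r) (((tt L p q) ^ i) r)] at this
    exact this
  · intro i g hA hB
    have h1 : uu L p q (((tt L p q) ^ i) r) = tt L q (((tt L p q) ^ i) r) *
      tt L p (((tt L p q) ^ i) r) * (tt L q (((tt L p q) ^ i) r))⁻¹ *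
      (tt L p (((tt L p q) ^ i) r))⁻¹ := rfl
    show Commute g (uu L p q (((tt L p q) ^ i) r))
    rw [h1]
    exact ((hB.mul_right hA).mul_right hB.inv_right).mul_right hA.inv_right
  · intro i j g hg h1 h2
    exact h.tt_cent' hg h1 h2
  · intro i j g hg h1 h2
    exact h.tt_cent hg h1 h2

/-- **the chain theorem** -/
theorem AE.chain {G : Subgroup (Perm Q)} {L : Q → Perm Q} {e : Q} (h : AE G L e) (p q r : Q) :
    (∀ i j : ℕ, Commute (uu L p q (((tt L p q) ^ i) r)) (uu L p q (((tt L p q) ^ j) r))) ∧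
      ∀ t : ℕ, tt L r (((tt L p q) ^ (2 * t + 1)) r) =
        pr (fun i => uu L p q (((tt L p q) ^ i) r)) 0 (2 * t + 1) * tt L p q := by
  have H := h.ch p q r
  refine ⟨?_, ?_⟩
  · have key : ∀ i k : ℕ, Commute (uu L p q (((tt L p q) ^ i) r))
        (uu L p q (((tt L p q) ^ (i + k)) r)) := by
      intro i k
      exact (H.main k).1 i k (by omega)
    intro i j
    rcases le_total i j with hij | hij
    · have := key i (j - i)
      rwa [show i + (j - i) = j by omega] at this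
    · have := key j (i - j)
      rw [show j + (i - j) = i by omega] at this
      exact this.symm
  · intro t
    have h1 := (H.main t).2 0
    have h2 : tt L (((tt L p q) ^ 0) r) (((tt L p q) ^ (0 + (2 * t + 1))) r) =
      pr (fun i => uu L p q (((tt L p q) ^ i) r)) 0 (2 * t + 1) * tt L p q := h1
    rw [Nat.zero_add, pow_zero, Perm.one_apply] at h2
    exact h2

/-- `u(p,q,C^k r) = C^k u(p,q,r) C^-k` -/
theorem AE.uu_pow {G : Subgroup (Perm Q)} {L : Q → Perm Q} {e : Q} (h : AE G L e) (p q r : Q)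
    (k : ℕ) : uu L p q (((tt L p q) ^ k) r) =
      (tt L p q) ^ (k : ℤ) * uu L p q r * (tt L p q) ^ (-(k : ℤ)) := by
  have H := h.ch p q r
  induction k with
  | zero => simp
  | succ k ih =>
    have h1 : tt L p q * uu L p q (((tt L p q) ^ k) r) =
      uu L p q (((tt L p q) ^ (k + 1)) r) * tt L p q := H.cu k
    have h2 : uu L p q (((tt L p q) ^ (k + 1)) r) =
        tt L p q * uu L p q (((tt L p q) ^ k) r) * (tt L p q)⁻¹ := by rw [h1]; group
    rw [h2, ih]
    push_cast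
    rw [neg_add, zpow_add, zpow_add, zpow_one]
    group

/-- the `u_i`, `i` an integer, commute -/
theorem AE.chain_comm {G : Subgroup (Perm Q)} {L : Q → Perm Q} {e : Q} (h : AE G L e) (p q r : Q)
    (i j : ℤ) : Commute ((tt L p q) ^ i * uu L p q r * (tt L p q) ^ (-i))
      ((tt L p q) ^ j * uu L p q r * (tt L p q) ^ (-j)) := by
  obtain ⟨C, hC⟩ : ∃ C, C = tt L p q := ⟨_, rfl⟩
  obtain ⟨v, hv⟩ : ∃ v, v = uu L p q r := ⟨_, rfl⟩
  have key : ∀ k : ℕ, v * (C ^ (k : ℤ) * v * C ^ (-(k : ℤ))) =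
      (C ^ (k : ℤ) * v * C ^ (-(k : ℤ))) * v := by
    intro k
    have h1 : uu L p q (((tt L p q) ^ 0) r) * uu L p q (((tt L p q) ^ k) r) =
      uu L p q (((tt L p q) ^ k) r) * uu L p q (((tt L p q) ^ 0) r) := (h.chain p q r).1 0 k
    rw [pow_zero, Perm.one_apply, h.uu_pow, ← hC, ← hv] at h1
    exact h1
  have key2 : ∀ (i : ℤ) (k : ℕ), (C ^ i * v * C ^ (-i)) * (C ^ (i + k) * v * C ^ (-(i + k))) =
      (C ^ (i + k) * v * C ^ (-(i + k))) * (C ^ i * v * C ^ (-i)) := by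
    intro i k
    have h1 := key k
    calc (C ^ i * v * C ^ (-i)) * (C ^ (i + k) * v * C ^ (-(i + k)))
        = C ^ i * (v * (C ^ (k : ℤ) * v * C ^ (-(k : ℤ)))) * C ^ (-i) := by group
      _ = C ^ i * ((C ^ (k : ℤ) * v * C ^ (-(k : ℤ))) * v) * C ^ (-i) := by rw [h1]
      _ = _ := by group
  rw [← hC, ← hv]
  rcases le_total i j with hij | hij
  · obtain ⟨k, hk⟩ := Int.eq_ofNat_of_zero_le (show 0 ≤ j - i by omega)
    have h1 : j = i + (k : ℤ) := by omega
    rw [h1]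
    exact key2 i k
  · obtain ⟨k, hk⟩ := Int.eq_ofNat_of_zero_le (show 0 ≤ i - j by omega)
    have h1 : i = j + (k : ℤ) := by omega
    rw [h1]
    exact (key2 j k).symm

theorem AE.chain_odd {G : Subgroup (Perm Q)} {L : Q → Perm Q} {e : Q} (h : AE G L e) (p q r : Q)
    (n : ℕ) (hn : Odd n) : ∃ w ∈ Subgroup.closure {g : Perm Q | ∃ i : ℤ,
      g = (tt L p q) ^ i * uu L p q r * (tt L p q) ^ (-i)},
      tt L r (((tt L p q) ^ n) r) = w * tt L p q := by
  obtain ⟨t, rfl⟩ := hn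
  refine ⟨_, ?_, (h.chain p q r).2 t⟩
  have key : ∀ m a : ℕ, pr (fun i => uu L p q (((tt L p q) ^ i) r)) a m ∈
      Subgroup.closure {g : Perm Q | ∃ i : ℤ,
      g = (tt L p q) ^ i * uu L p q r * (tt L p q) ^ (-i)} := by
    intro m
    induction m with
    | zero => intro a; exact Subgroup.one_mem _
    | succ m ih =>
      intro a
      rw [pr_succ]
      refine Subgroup.mul_mem _ (Subgroup.subset_closure ⟨(a : ℤ), ?_⟩) (ih (a + 1))
      exact h.uu_pow p q r a
  exact key _ _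

end ALoop
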